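import Pool.Agent.H110R3.UF.Stmts

set_option autoImplicit false

open scoped Matrix
open Finset

namespace Pool.Agent.H110R3.UF.H275

open Pool.Agent.H110R3.UF Matrix

open scoped ComplexOrder MatrixOrder Matrix.Norms.L2Operator in
theorem exists_root {n J : Type} [Fintype n] [DecidableEq n] [Fintype J] (A : Matrix n J ℂ) :
    ∃ r : Matrix n n ℂ, A * Aᴴ = r * rᴴ := by
  have hp := Matrix.posSemidef_self_mul_conjTranspose A
  obtain ⟨B, hB⟩ := CStarAlgebra.nonneg_iff_eq_star_mul_self.mp hp.nonneg
  exact ⟨Bᴴ, by rw [hB, conjTranspose_conjTranspose, star_eq_conjTranspose]⟩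

theorem taskPos : TaskPos := by
  intro I J L _ _ _ _ _ s t m hm
  have key : ∀ l : L, ∃ r : Matrix {i // s i = l} {i // s i = l} ℂ,
      (m.submatrix (Subtype.val : {i // s i = l} → I) id) *
        (m.submatrix (Subtype.val : {i // s i = l} → I) id)ᴴ = r * rᴴ := by
    intro l
    exact exists_root _
  choose r hr using key
  have tr : ∀ (i k : I) (l : L) (hi : s i = l) (hk : s k = l),
      r (s k) ⟨i, hi.trans hk.symm⟩ ⟨k, rfl⟩ = r l ⟨i, hi⟩ ⟨k, hk⟩ := by
    intro i k l hi hk
    subst hk
    rfl
  refine ⟨Matrix.of fun i j => if h : s i = s j then r (s j) ⟨i, h⟩ ⟨j, rfl⟩ else 0, ?_, ?_⟩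
  · intro i j h
    simp [h]
  · ext i i'
    simp only [Matrix.mul_apply, conjTranspose_apply, Matrix.of_apply]
    by_cases h : s i = s i'
    · have h1 := congrFun (congrFun (hr (s i')) ⟨i, h⟩) ⟨i', rfl⟩
      rw [Matrix.mul_apply, Matrix.mul_apply] at h1
      simp only [submatrix_apply, conjTranspose_apply, id] at h1
      rw [h1]
      symm
      have h2 : ∀ k, s k ≠ s i' → (if h : s i = s k then r (s k) ⟨i, h⟩ ⟨k, rfl⟩ else 0) *
          star (if h : s i' = s k then r (s k) ⟨i', h⟩ ⟨k, rfl⟩ else 0) = 0 := by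
        intro k hk
        rw [dif_neg (fun h' : s i' = s k => hk h'.symm)]
        simp
      rw [← Finset.sum_filter_of_ne (s := univ) (p := fun k => s k = s i')
        (fun k _ hk => by
          by_contra hc
          exact hk (h2 k hc))]
      rw [Finset.sum_subtype (univ.filter fun k => s k = s i') (p := fun k => s k = s i')
        (by simp)]
      refine Finset.sum_congr rfl fun k _ => ?_
      obtain ⟨k, hk⟩ := k
      have hk1 : s i = s k := h.trans hk.symm
      have hk2 : s i' = s k := hk.symm
      simp only [dif_pos hk1, dif_pos hk2]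
      rw [tr i k (s i') h hk, tr i' k (s i') rfl hk]
    · have h1 : ∀ j, m i j * star (m i' j) = 0 := by
        intro j
        by_cases hj : s i = t j
        · have : m i' j = 0 := hm i' j (fun h' => h (hj.trans h'.symm))
          rw [this]; simp
        · rw [hm i j hj]; simp
      rw [Finset.sum_eq_zero fun j _ => h1 j]
      symm
      apply Finset.sum_eq_zero
      intro k _
      by_cases hk : s i = s k
      · have hk2 : ¬ s i' = s k := fun h' => h (hk.trans h'.symm)
        rw [dif_neg hk2]; simp
      · rw [dif_neg hk]; simp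

end Pool.Agent.H110R3.UF.H275
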